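import Pool.Agent.TH845.KN.B2

/-!
# Splitting one variable off the unit cube
-/

set_option autoImplicit false

namespace Pool.Agent.W110.PG

open MeasureTheory
open Pool.Agent.H261R2.CM

noncomputable section

/-- Lebesgue measure on the unit cube -/
abbrev cub (k : ℕ) : Measure (Fin k → ℝ) := volume.restrict (Set.Icc (0 : Fin k → ℝ) 1)

/-- Lebesgue measure on the unit interval -/
abbrev seg : Measure ℝ := volume.restrict (Set.Icc (0 : ℝ) 1)

instance : IsProbabilityMeasure seg :=
  ⟨by rw [Measure.restrict_apply_univ, Real.volume_Icc]; simp⟩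

instance (k : ℕ) : IsProbabilityMeasure (cub k) := by
  have h : cub k = Measure.pi (fun _ : Fin k => seg) := F_restrict_cube k
  rw [h]
  infer_instance

/-- `(s, t) ↦ (s, t_1, …, t_k)` -/
def consE (k : ℕ) : ℝ × (Fin k → ℝ) ≃ᵐ (Fin (k + 1) → ℝ) :=
  (MeasurableEquiv.piFinSuccAbove (fun _ => ℝ) 0).symm

theorem consE_apply (k : ℕ) (s : ℝ) (t : Fin k → ℝ) : consE k (s, t) = Fin.cons s t := by
  unfold consE
  show Fin.insertNth (α := fun _ : Fin (k + 1) => ℝ) 0 s t = _
  funext i
  refine Fin.cases ?_ (fun j => ?_) i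
  · simp
  · simp

theorem consE_mp (k : ℕ) : MeasurePreserving (consE k) (seg.prod (cub k)) (cub (k + 1)) := by
  have h1 : cub (k + 1) = Measure.pi (fun _ : Fin (k + 1) => seg) := F_restrict_cube (k + 1)
  have h2 : cub k = Measure.pi (fun _ : Fin k => seg) := F_restrict_cube k
  rw [h1, h2]
  have h3 := measurePreserving_piFinSuccAbove (fun _ : Fin (k + 1) => seg) 0
  exact h3.symm _

theorem cons_facts {k : ℕ} {f : (Fin (k + 1) → ℝ) → ℝ} (hf : Integrable f (cub (k + 1))) :
    Integrable (fun t => ∫ s, f (Fin.cons s t) ∂seg) (cub k) ∧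
    ∫ τ, f τ ∂(cub (k + 1)) = ∫ t, (∫ s, f (Fin.cons s t) ∂seg) ∂(cub k) ∧
    ∀ᵐ t ∂(cub k), Integrable (fun s => f (Fin.cons s t)) seg := by
  have h1 : Integrable (fun p : ℝ × (Fin k → ℝ) => f (Fin.cons p.1 p.2)) (seg.prod (cub k)) := by
    have h2 := ((consE_mp k).integrable_comp_emb (consE k).measurableEmbedding).2 hf
    refine h2.congr (Filter.Eventually.of_forall fun p => ?_)
    show f (consE k p) = f (Fin.cons p.1 p.2)
    rw [← consE_apply]
  refine ⟨h1.integral_prod_right, ?_, h1.prod_left_ae⟩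
  have h3 := (consE_mp k).integral_comp (consE k).measurableEmbedding f
  rw [← h3]
  have h4 : ∀ p : ℝ × (Fin k → ℝ), f (consE k p) = f (Fin.cons p.1 p.2) := by
    intro p
    rw [← consE_apply]
  simp_rw [h4]
  exact integral_prod_symm _ h1

theorem seg_integral (f : ℝ → ℝ) : ∫ s, f s ∂seg = ∫ s in (0:ℝ)..1, f s := by
  rw [intervalIntegral.integral_of_le zero_le_one, integral_Icc_eq_integral_Ioc]

end

end Pool.Agent.W110.PG
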