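import Pool.Agent.W110.PG.A

/-!
# Families of Hermitian matrices over the torus
-/

set_option autoImplicit false
set_option linter.unusedSectionVars false

namespace Pool.Agent.W110.PG

open MeasureTheory Polynomial Matrix
open Pool.Agent.H261R2.CM Pool.Agent.W242.IM

noncomputable section

/-- A family of Hermitian matrices `A t` over the torus such that the determinants of the principal
submatrices of `z + 1/z - A t` are, up to the modulus, values of integer polynomials `F U` in `z` and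
the variables of the torus; the moduli of the entries are values of integer polynomials. -/
structure Fam (k n : ℕ) where
  A : (Fin k → ℝ) → Matrix (Fin n) (Fin n) ℂ
  P : Matrix (Fin n) (Fin n) (MvPolynomial (Fin k) ℤ)
  F : Finset (Fin n) → MvPolynomial (Fin (k + 1)) ℤ
  herm : ∀ t, (A t).IsHermitian
  ent : ∀ i j t, ‖tv (P i j) t‖ = ‖A t i j‖
  val : ∀ U t s, ‖tv (F U) (Fin.cons s t)‖ = ‖(cp (A t) U).eval ((tc s : ℝ) : ℂ)‖

variable {k n : ℕ}

theorem tv_zero' {k : ℕ} (t : Fin k → ℝ) : tv (0 : MvPolynomial (Fin k) ℤ) t = 0 := by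
  unfold tv
  simp

theorem Fam.F_ne (M : Fam k n) (U : Finset (Fin n)) : M.F U ≠ 0 := by
  intro h
  obtain ⟨s, hs⟩ := (cp_ae (M.herm 0) U).exists
  have h1 := M.val U 0 s
  rw [h, tv_zero', norm_zero] at h1
  exact hs (norm_eq_zero.mp h1.symm)

/-- the logarithmic measure -/
def Fam.L (M : Fam k n) (U : Finset (Fin n)) : ℝ := ∫ t, mp (cp (M.A t) U) ∂(cub k)

theorem Fam.L_facts (M : Fam k n) (U : Finset (Fin n)) :
    Integrable (fun t => mp (cp (M.A t) U)) (cub k) ∧ mM (M.F U) = Real.exp (M.L U) := by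
  obtain ⟨h1, h2, -⟩ := cons_facts (F_integrable (M.F_ne U))
  have h3 : ∀ t, ∫ s, Real.log ‖tv (M.F U) (Fin.cons s t)‖ ∂seg = mp (cp (M.A t) U) := by
    intro t
    rw [seg_integral]
    unfold mp
    simp_rw [M.val]
  simp only [h3] at h1 h2
  refine ⟨h1, ?_⟩
  unfold mM Fam.L
  rw [h2]

theorem Fam.L_nonneg (M : Fam k n) (U : Finset (Fin n)) : 0 ≤ M.L U :=
  integral_nonneg fun t => cp_nonneg (M.herm t) U

theorem Fam.L_mono (M : Fam k n) {W U : Finset (Fin n)} (h : W ⊆ U) : M.L W ≤ M.L U :=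
  integral_mono (M.L_facts W).1 (M.L_facts U).1 fun t => mp_mono (M.herm t) h

theorem Fam.L_empty (M : Fam k n) : M.L ∅ = 0 := by
  unfold Fam.L
  have h : ∀ t, mp (cp (M.A t) ∅) = 0 := fun t => mp_empty _ (M.herm t)
  simp only [h, integral_zero]

theorem Fam.ae_zero (M : Fam k n) (U : Finset (Fin n)) (h : M.L U = 0) :
    ∀ᵐ t ∂(cub k), mp (cp (M.A t) U) = 0 := by
  have h1 := (integral_eq_zero_iff_of_nonneg (fun t => cp_nonneg (M.herm t) U) (M.L_facts U).1).1 h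
  exact h1

theorem Fam.height (M : Fam k n) (U S : Finset (Fin n)) (hS : S ⊆ U) :
    mx (M.F U) (M.F (U \ S)) ≤ M.L U + S.card * (2 * M.L U + 5 * Real.log 2) := by
  obtain ⟨h1, h2, -⟩ := cons_facts
    (Pool.Agent.TH845.KN.integrable_logmax' (M.F_ne U) (M.F (U \ S)))
  have h3 : ∀ t, ∫ s, Real.log (max ‖tv (M.F U) (Fin.cons s t)‖ ‖tv (M.F (U \ S)) (Fin.cons s t)‖)
      ∂seg = ∫ s in (0:ℝ)..1, Real.log (max ‖(cp (M.A t) U).eval ((tc s : ℝ) : ℂ)‖
      ‖(cp (M.A t) (U \ S)).eval ((tc s : ℝ) : ℂ)‖) := by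
    intro t
    rw [seg_integral]
    simp_rw [M.val]
  simp only [h3] at h1 h2
  have h4 : mx (M.F U) (M.F (U \ S)) = ∫ t, (∫ s in (0:ℝ)..1,
      Real.log (max ‖(cp (M.A t) U).eval ((tc s : ℝ) : ℂ)‖
      ‖(cp (M.A t) (U \ S)).eval ((tc s : ℝ) : ℂ)‖)) ∂(cub k) := h2
  have hi := (M.L_facts U).1
  rw [h4]
  have h5 : Integrable (fun t => (1 + 2 * (S.card : ℝ)) * mp (cp (M.A t) U) +
      S.card * (5 * Real.log 2)) (cub k) := (hi.const_mul _).add (integrable_const _)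
  refine (integral_mono h1 h5 fun t => ?_).trans (le_of_eq ?_)
  · have h6 := height_chain (M.herm t) U S hS
    refine h6.trans (le_of_eq ?_)
    ring
  · rw [integral_add (hi.const_mul _) (integrable_const _), integral_const_mul, integral_const,
      probReal_univ, one_smul]
    unfold Fam.L
    ring

/-! ### Pairs whose common divisors have measure one -/

theorem mx_mul {m : ℕ} (D A B : MvPolynomial (Fin m) ℤ) (hD : D ≠ 0) (hA : A ≠ 0) :
    mx (D * A) (D * B) = Real.log (mM D) + mx A B := by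
  have h0 : Real.log (mM D) = ∫ t in Set.Icc (0 : Fin m → ℝ) 1, Real.log ‖tv D t‖ := by
    unfold mM
    rw [Real.log_exp]
  rw [h0]
  unfold mx
  rw [← integral_add (F_integrable hD) (Pool.Agent.TH845.KN.integrable_logmax' hA B)]
  refine integral_congr_ae ?_
  filter_upwards [F_zero_null hD, F_zero_null hA] with t h1 h2
  have p1 : 0 < ‖tv D t‖ := norm_pos_iff.2 h1
  have p2 : 0 < ‖tv A t‖ := norm_pos_iff.2 h2
  have p3 : 0 < max ‖tv A t‖ ‖tv B t‖ := lt_max_of_lt_left p2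
  rw [J.tv_mul, J.tv_mul, norm_mul, norm_mul, ← mul_max_of_nonneg _ _ p1.le,
    Real.log_mul p1.ne' p3.ne']

theorem reduce {m : ℕ} (F G : MvPolynomial (Fin m) ℤ) (hF : F ≠ 0) (hG : G ≠ 0)
    (h : ∀ D, D ∣ F → D ∣ G → mM D = 1) :
    ∃ A B : MvPolynomial (Fin m) ℤ, A ≠ 0 ∧ B ≠ 0 ∧ IsRelPrime A B ∧ mM A = mM F ∧
      mx A B = mx F G := by
  obtain ⟨a, b, d, hab, ha, hb⟩ := UniqueFactorizationMonoid.exists_reduced_factors F hF G
  have hd0 : d ≠ 0 := by
    rintro rfl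
    exact hF (by rw [← ha, zero_mul])
  have ha0 : a ≠ 0 := by
    rintro rfl
    exact hF (by rw [← ha, mul_zero])
  have hb0 : b ≠ 0 := by
    rintro rfl
    exact hG (by rw [← hb, mul_zero])
  have hd : mM d = 1 := h d ⟨a, ha.symm⟩ ⟨b, hb.symm⟩
  refine ⟨a, b, ha0, hb0, hab, ?_, ?_⟩
  · rw [← ha, mM_mul d a hd0 ha0, hd, one_mul]
  · rw [← ha, ← hb, mx_mul d a b hd0 ha0, hd, Real.log_one, zero_add]

theorem mM_one_of_dvd {m : ℕ} (D G : MvPolynomial (Fin m) ℤ) (hG : G ≠ 0) (hD : D ∣ G)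
    (h : mM G = 1) : mM D = 1 := by
  obtain ⟨E, rfl⟩ := hD
  have hD0 : D ≠ 0 := left_ne_zero_of_mul hG
  have hE0 : E ≠ 0 := right_ne_zero_of_mul hG
  rw [mM_mul D E hD0 hE0] at h
  have h1 := one_le_mM D hD0
  have h2 := one_le_mM E hE0
  nlinarith

theorem pair_gap' (K : ℝ) : ∃ c : ℝ, 1 < c ∧ ∀ (m : ℕ) (F G : MvPolynomial (Fin m) ℤ), F ≠ 0 →
    G ≠ 0 → (∀ D, D ∣ F → D ∣ G → mM D = 1) → mx F G ≤ K → mM F = 1 ∨ c ≤ mM F := by
  obtain ⟨c, hc, h⟩ := gap_all K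
  refine ⟨c, hc, fun m F G hF hG hD hK => ?_⟩
  obtain ⟨A, B, hA, hB, hAB, h1, h2⟩ := reduce F G hF hG hD
  rw [← h1]
  exact h m A B hA hB hAB (by rw [h2]; exact hK)

theorem pair_LL' (K : ℝ) (m : ℕ) (hm : 1 ≤ m) (F G : MvPolynomial (Fin m) ℤ) (hF : F ≠ 0)
    (hG : G ≠ 0) (hD : ∀ D, D ∣ F → D ∣ G → mM D = 1) (hK : mx F G ≤ K) : mM F ∈ LL K := by
  obtain ⟨A, B, hA, hB, hAB, h1, h2⟩ := reduce F G hF hG hD
  exact ⟨m, hm, A, B, hA, hB, hAB, by rw [h2]; exact hK, h1.symm⟩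

theorem Fam.mM_eq_one (M : Fam k n) (U : Finset (Fin n)) (h : M.L U = 0) : mM (M.F U) = 1 := by
  rw [(M.L_facts U).2, h, Real.exp_zero]

/-- deletion of rows making the measure one -/
theorem Fam.gcd_cond (M : Fam k n) (U W : Finset (Fin n)) (h : M.L W = 0) :
    ∀ D, D ∣ M.F U → D ∣ M.F W → mM D = 1 :=
  fun D _ hD => mM_one_of_dvd D (M.F W) (M.F_ne W) hD (M.mM_eq_one W h)

end

end Pool.Agent.W110.PG
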