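import Pool.Agent.W110.PG.B

/-!
# Minimal submatrices, degrees and deletion for families
-/

set_option autoImplicit false
set_option linter.unusedSectionVars false

namespace Pool.Agent.W110.PG

open MeasureTheory Polynomial Matrix Filter
open Pool.Agent.H261R2.CM Pool.Agent.W242.IM

noncomputable section

variable {k n : ℕ}

theorem gap_min' : ∃ δ : ℝ, 0 < δ ∧ ∀ (k n : ℕ) (M : Fam k n) (U : Finset (Fin n)) (v : Fin n),
    v ∈ U → M.L (U.erase v) = 0 → M.L U = 0 ∨ δ ≤ M.L U := by
  obtain ⟨c, hc, h⟩ := pair_gap' (3 + 5 * Real.log 2)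
  refine ⟨min (Real.log c) 1, lt_min (Real.log_pos hc) one_pos, fun k n M U v hv h0 => ?_⟩
  rcases le_or_gt (M.L U) 1 with h1 | h1
  · have h2 := M.height U {v} (Finset.singleton_subset_iff.mpr hv)
    rw [Finset.sdiff_singleton_eq_erase, Finset.card_singleton, Nat.cast_one, one_mul] at h2
    rcases h (k + 1) (M.F U) (M.F (U.erase v)) (M.F_ne _) (M.F_ne _) (M.gcd_cond U _ h0)
      (by linarith) with h3 | h3
    · left
      rw [(M.L_facts U).2, Real.exp_eq_one_iff] at h3
      exact h3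
    · right
      refine (min_le_left _ _).trans ?_
      rw [(M.L_facts U).2] at h3
      rw [← Real.log_exp (M.L U)]
      exact Real.log_le_log (by linarith) h3
  · right
    exact (min_le_right _ _).trans h1.le

theorem Fam.exists_minimal (M : Fam k n) (U : Finset (Fin n)) (hU : M.L U ≠ 0) :
    ∃ V ⊆ U, M.L V ≠ 0 ∧ ∀ v ∈ V, M.L (V.erase v) = 0 := by
  induction U using Finset.strongInduction with
  | H U ih =>
    by_cases h : ∀ v ∈ U, M.L (U.erase v) = 0
    · exact ⟨U, Finset.Subset.refl _, hU, h⟩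
    · push Not at h
      obtain ⟨v, hv, hne⟩ := h
      obtain ⟨V, hV, h1, h2⟩ := ih (U.erase v) (Finset.erase_ssubset hv) hne
      exact ⟨V, hV.trans (Finset.erase_subset _ _), h1, h2⟩

/-- Families of measure larger than one contain small such principal submatrices. -/
theorem size_bound' : ∃ (δ : ℝ) (N : ℕ), 0 < δ ∧ ∀ (k n : ℕ) (M : Fam k n) (U : Finset (Fin n)),
    M.L U ≠ 0 → ∃ V ⊆ U, V.card ≤ N ∧ δ ≤ M.L V := by
  obtain ⟨δ, hδ, h⟩ := gap_min'
  obtain ⟨N, hN, hN'⟩ := exists_size δ hδ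
  refine ⟨δ, N, hδ, fun k n M U hU => ?_⟩
  obtain ⟨V, hV, h1, h2⟩ := M.exists_minimal U hU
  have hne : V.Nonempty := by
    rw [Finset.nonempty_iff_ne_empty]
    rintro rfl
    exact h1 M.L_empty
  obtain ⟨v, hv⟩ := hne
  have h3 : δ ≤ M.L V := (h k n M V v hv (h2 v hv)).resolve_left h1
  refine ⟨V, hV, ?_, h3⟩
  by_contra hcon
  push Not at hcon
  have hae : ∀ᵐ t ∂(cub k), ∀ w ∈ V, mp (cp (M.A t) (V.erase w)) = 0 := by
    rw [Filter.eventually_all_finset]
    exact fun w hw => M.ae_zero _ (h2 w hw)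
  have h4 : ∀ᵐ t ∂(cub k), mp (cp (M.A t) V) ≤ 2 * phi (2 + 4 / ((V.card : ℝ) - 2)) := by
    filter_upwards [hae] with t ht
    have h5 := mp_le_of_del_cyc (sm_hermitian (M.herm t) V) (by rw [Fintype.card_coe]; omega)
      (fun w => by
        have h5 : w = ⟨w.1, w.2⟩ := rfl
        rw [h5, cp_erase (M.A t) V w.1 w.2]
        exact ht w.1 w.2)
    rw [Fintype.card_coe] at h5
    exact h5
  have h5 : M.L V ≤ 2 * phi (2 + 4 / ((V.card : ℝ) - 2)) := by
    have h6 := integral_mono_ae (M.L_facts V).1 (integrable_const _) h4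
    rw [integral_const, probReal_univ, one_smul] at h6
    exact h6
  have h6 := hN' V.card hcon.le
  linarith

/-! ### Separated sets -/

theorem Fam.L_sum (M : Fam k n) (S : Finset (Finset (Fin n))) (hS : ∀ t, Sep (M.A t) S) :
    M.L (S.biUnion id) = ∑ U ∈ S, M.L U := by
  unfold Fam.L
  rw [← integral_finsetSum _ (fun U _ => (M.L_facts U).1)]
  refine integral_congr_ae (Eventually.of_forall fun t => ?_)
  exact mp_sum (M.herm t) S (hS t)

/-! ### The number of nonzero entries of a row -/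

theorem row_bound {A : Matrix (Fin n) (Fin n) ℂ} (hA : A.IsHermitian) (i : Fin n) :
    ∑ j, ‖A i j‖ ^ 2 ≤ 4 * Real.exp (2 * mp (cp A Finset.univ)) := by
  rw [mp_univ]
  set b := mp A.charpoly with hb
  have hρ : ∀ j, |hA.eigenvalues j| ≤ 2 * Real.exp b := by
    intro j
    rcases eq_or_lt_of_le (abs_nonneg (hA.eigenvalues j)) with h0 | h0
    · rw [← h0]
      positivity
    · have h1 : phi (hA.eigenvalues j) ≤ b := by
        rw [hb, (mp_charpoly hA).2]
        exact Finset.single_le_sum (f := fun j => phi (hA.eigenvalues j))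
          (fun _ _ => phi_nonneg _) (Finset.mem_univ j)
      have h2 : Real.log (|hA.eigenvalues j| / 2) ≤ b :=
        (le_max_right _ _).trans ((posLog_half_le_phi _).trans h1)
      rw [Real.log_le_iff_le_exp (by positivity)] at h2
      linarith
  have h1 := nsq_mulVec_le hA _ hρ (Pi.single i 1)
  have h2 : nsq (Pi.single i (1 : ℂ)) = 1 := by
    unfold nsq
    rw [Finset.sum_eq_single i]
    · simp
    · intro b _ hb
      simp [hb]
    · simp
  rw [h2, mul_one] at h1
  have h3 : nsq (A *ᵥ Pi.single i 1) = ∑ j, ‖A i j‖ ^ 2 := by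
    unfold nsq
    refine Finset.sum_congr rfl fun j _ => ?_
    rw [mulVec_single_one, Matrix.col_apply, ← hA.apply i j, norm_star]
  rw [h3] at h1
  have h5 : (2 * Real.exp b) ^ 2 = 4 * Real.exp (2 * b) := by
    rw [mul_pow, ← Real.exp_nat_mul]
    norm_num
  rw [h5] at h1
  exact h1

theorem log_mean {ι : Type*} (D : Finset ι) (hD : D.Nonempty) (x : ι → ℝ) (hx : ∀ i ∈ D, 0 < x i)
    (S : ℝ) (hS : ∑ i ∈ D, x i ≤ S) :
    (D.card : ℝ)⁻¹ * ∑ i ∈ D, Real.log (x i) ≤ Real.log S - Real.log D.card := by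
  have hc : 0 < (D.card : ℝ) := by exact_mod_cast hD.card_pos
  have h1 := strictConcaveOn_log_Ioi.concaveOn.le_map_sum (t := D)
    (w := fun _ => (D.card : ℝ)⁻¹) (p := x) (fun _ _ => by positivity) (by
      rw [Finset.sum_const, nsmul_eq_mul, mul_inv_cancel₀ hc.ne']) (fun i hi => hx i hi)
  simp only [smul_eq_mul] at h1
  rw [← Finset.mul_sum, ← Finset.mul_sum] at h1
  have h2 : 0 < ∑ i ∈ D, x i := Finset.sum_pos hx hD
  refine h1.trans ?_
  rw [Real.log_mul (by positivity) h2.ne', Real.log_inv]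
  have h3 := Real.log_le_log h2 hS
  linarith

/-- The number of nonzero entries in a row. -/
theorem Fam.degree (M : Fam k n) (b : ℝ) (hb : M.L Finset.univ ≤ b) (i : Fin n) :
    ((Finset.univ.filter fun j => M.P i j ≠ 0).card : ℝ) ≤ 4 * Real.exp (2 * b) := by
  classical
  set D := Finset.univ.filter fun j => M.P i j ≠ 0 with hDdef
  rcases D.eq_empty_or_nonempty with h0 | hne
  · rw [h0, Finset.card_empty, Nat.cast_zero]
    positivity
  have hDm : ∀ j ∈ D, M.P i j ≠ 0 := fun j hj => (Finset.mem_filter.mp hj).2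
  have hc : 0 < (D.card : ℝ) := by exact_mod_cast hne.card_pos
  have hae : ∀ᵐ t ∂(cub k), ∀ j ∈ D, tv (M.P i j) t ≠ 0 := by
    rw [Filter.eventually_all_finset]
    exact fun j hj => F_zero_null (hDm j hj)
  have hpt : ∀ᵐ t ∂(cub k), (D.card : ℝ)⁻¹ * ∑ j ∈ D, (2 * Real.log ‖tv (M.P i j) t‖) ≤
      (Real.log 4 - Real.log D.card) + 2 * mp (cp (M.A t) Finset.univ) := by
    filter_upwards [hae] with t ht
    have h1 := log_mean D hne (fun j => ‖tv (M.P i j) t‖ ^ 2)
      (fun j hj => by have := norm_pos_iff.mpr (ht j hj); positivity)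
      (4 * Real.exp (2 * mp (cp (M.A t) Finset.univ))) (by
        refine le_trans ?_ (row_bound (M.herm t) i)
        simp_rw [M.ent]
        exact Finset.sum_le_sum_of_subset_of_nonneg (Finset.subset_univ _)
          (fun _ _ _ => by positivity))
    rw [Real.log_mul (by norm_num) (Real.exp_pos _).ne', Real.log_exp] at h1
    simp only [Real.log_pow, Nat.cast_ofNat] at h1
    linarith
  have hint : Integrable (fun t => (D.card : ℝ)⁻¹ * ∑ j ∈ D, (2 * Real.log ‖tv (M.P i j) t‖))
      (cub k) :=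
    (integrable_finsetSum _ (fun j hj => (F_integrable (hDm j hj)).const_mul 2)).const_mul _
  have hint2 : Integrable (fun t => (Real.log 4 - Real.log D.card) +
      2 * mp (cp (M.A t) Finset.univ)) (cub k) :=
    (integrable_const _).add ((M.L_facts Finset.univ).1.const_mul 2)
  have h1 := integral_mono_ae hint hint2 hpt
  rw [integral_add (integrable_const _) ((M.L_facts Finset.univ).1.const_mul 2), integral_const,
    probReal_univ, one_smul, integral_const_mul, integral_const_mul,
    integral_finsetSum _ (fun j hj => (F_integrable (hDm j hj)).const_mul 2)] at h1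
  have h2 : 0 ≤ ∑ j ∈ D, ∫ t, 2 * Real.log ‖tv (M.P i j) t‖ ∂(cub k) := by
    refine Finset.sum_nonneg fun j hj => ?_
    rw [integral_const_mul]
    have h3 := one_le_mM (M.P i j) (hDm j hj)
    have h4 : 0 ≤ ∫ t in Set.Icc (0 : Fin k → ℝ) 1, Real.log ‖tv (M.P i j) t‖ := by
      unfold mM at h3
      exact Real.one_le_exp_iff.mp h3
    exact mul_nonneg (by norm_num) h4
  have h3 : 0 ≤ (D.card : ℝ)⁻¹ * ∑ j ∈ D, ∫ t, 2 * Real.log ‖tv (M.P i j) t‖ ∂(cub k) :=
    mul_nonneg (by positivity) h2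
  have h4 : Real.log D.card ≤ Real.log 4 + 2 * b := by
    have h5 : ∫ t, mp (cp (M.A t) Finset.univ) ∂(cub k) = M.L Finset.univ := rfl
    rw [h5] at h1
    linarith
  rw [Real.log_le_iff_le_exp hc, Real.exp_add, Real.exp_log (by norm_num)] at h4
  exact h4

/-- Deletion of boundedly many rows. -/
theorem deletion' (b : ℝ) : ∃ s : ℕ, ∀ (k n : ℕ) (M : Fam k n), M.L Finset.univ ≤ b →
    ∃ S : Finset (Fin n), S.card ≤ s ∧ M.L (Finset.univ \ S) = 0 := by
  classical
  obtain ⟨δ, N, hδ, h⟩ := size_bound'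
  refine ⟨⌊b / δ⌋₊ * N * (1 + ⌊4 * Real.exp (2 * b)⌋₊), fun k n M hb => ?_⟩
  have hP0 : ∀ i j, M.P i j = 0 → ∀ t, M.A t i j = 0 ∧ M.A t j i = 0 := by
    intro i j h0 t
    have h1 : M.A t i j = 0 := by
      have h2 := M.ent i j t
      rw [h0, tv_zero', norm_zero] at h2
      exact norm_eq_zero.mp h2.symm
    refine ⟨h1, ?_⟩
    rw [← (M.herm t).apply j i, h1, star_zero]
  set SepM : Finset (Finset (Fin n)) → Prop := fun F => ∀ t, Sep (M.A t) F with hSepM
  set good : Finset (Finset (Finset (Fin n))) := Finset.univ.filter fun F =>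
    SepM F ∧ ∀ U ∈ F, U.card ≤ N ∧ δ ≤ M.L U with hgood
  have hne : good.Nonempty := by
    refine ⟨∅, ?_⟩
    rw [hgood, Finset.mem_filter]
    refine ⟨Finset.mem_univ _, ?_, ?_⟩
    · intro t U hU
      exact absurd hU (Finset.notMem_empty U)
    · intro U hU
      exact absurd hU (Finset.notMem_empty U)
  obtain ⟨F, hF, hmax⟩ := Finset.exists_max_image good Finset.card hne
  rw [hgood, Finset.mem_filter] at hF
  obtain ⟨-, hsep, hFU⟩ := hF
  have hcard : (F.card : ℝ) * δ ≤ b := by
    have h1 := M.L_sum F hsep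
    have h2 : (F.card : ℝ) * δ ≤ ∑ U ∈ F, M.L U := by
      rw [← nsmul_eq_mul]
      exact Finset.card_nsmul_le_sum F _ δ (fun U hU => (hFU U hU).2)
    have h3 := M.L_mono (Finset.subset_univ (F.biUnion id))
    linarith
  have hFcard : F.card ≤ ⌊b / δ⌋₊ := by
    apply Nat.le_floor
    rw [le_div_iff₀ hδ]
    exact hcard
  set W := F.biUnion id with hW
  have hWcard : W.card ≤ ⌊b / δ⌋₊ * N := by
    calc W.card ≤ ∑ U ∈ F, (id U).card := Finset.card_biUnion_le
      _ ≤ ∑ U ∈ F, N := Finset.sum_le_sum fun U hU => (hFU U hU).1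
      _ = F.card * N := by rw [Finset.sum_const, smul_eq_mul]
      _ ≤ ⌊b / δ⌋₊ * N := Nat.mul_le_mul_right N hFcard
  set D := ⌊4 * Real.exp (2 * b)⌋₊ with hD
  set S := W ∪ W.biUnion (fun i => Finset.univ.filter fun j => M.P i j ≠ 0) with hS
  have hdeg : ∀ i, (Finset.univ.filter fun j => M.P i j ≠ 0).card ≤ D := by
    intro i
    apply Nat.le_floor
    exact M.degree b hb i
  have hScard : S.card ≤ ⌊b / δ⌋₊ * N * (1 + D) := by
    calc S.card ≤ W.card + (W.biUnion (fun i => Finset.univ.filter fun j => M.P i j ≠ 0)).card :=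
          Finset.card_union_le _ _
      _ ≤ W.card + W.card * D := by
          refine Nat.add_le_add_left ?_ _
          exact Finset.card_biUnion_le_card_mul _ _ _ fun i _ => hdeg i
      _ = W.card * (1 + D) := by ring
      _ ≤ ⌊b / δ⌋₊ * N * (1 + D) := Nat.mul_le_mul_right _ hWcard
  refine ⟨S, hScard, ?_⟩
  by_contra hcon
  obtain ⟨V, hV, hVN, hVδ⟩ := h k n M _ hcon
  have hVS : ∀ v ∈ V, v ∉ S := fun v hv => (Finset.mem_sdiff.mp (hV hv)).2
  have hVF : V ∉ F := by
    intro hVF
    have hVe : V = ∅ := by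
      rw [Finset.eq_empty_iff_forall_notMem]
      intro v hv
      exact hVS v hv (Finset.mem_union_left _ (Finset.mem_biUnion.mpr ⟨V, hVF, hv⟩))
    rw [hVe, M.L_empty] at hVδ
    linarith
  have hnew : insert V F ∈ good := by
    rw [hgood, Finset.mem_filter]
    refine ⟨Finset.mem_univ _, ?_, ?_⟩
    · have key : ∀ U ∈ F, Disjoint U V ∧ ∀ i ∈ U, ∀ j ∈ V, M.P i j = 0 := by
        intro U hU
        constructor
        · rw [Finset.disjoint_left]
          intro i hiU hiV
          exact hVS i hiV (Finset.mem_union_left _ (Finset.mem_biUnion.mpr ⟨U, hU, hiU⟩))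
        · intro i hi j hj
          by_contra hne
          refine hVS j hj (Finset.mem_union_right _ (Finset.mem_biUnion.mpr
            ⟨i, Finset.mem_biUnion.mpr ⟨U, hU, hi⟩, ?_⟩))
          exact Finset.mem_filter.mpr ⟨Finset.mem_univ _, hne⟩
      intro t U hU U' hU' hne
      rcases Finset.mem_insert.mp hU with hU1 | hU1 <;>
        rcases Finset.mem_insert.mp hU' with hU2 | hU2
      · exact absurd (hU1.trans hU2.symm) hne
      · subst hU1
        refine ⟨(key U' hU2).1.symm, fun i hi j hj => ?_⟩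
        exact (hP0 j i ((key U' hU2).2 j hj i hi) t).2
      · subst hU2
        refine ⟨(key U hU1).1, fun i hi j hj => ?_⟩
        exact (hP0 i j ((key U hU1).2 i hi j hj) t).1
      · exact hsep t U hU1 U' hU2 hne
    · intro U hU
      rcases Finset.mem_insert.mp hU with rfl | hU
      · exact ⟨hVN, hVδ⟩
      · exact hFU U hU
  have := hmax _ hnew
  rw [Finset.card_insert_of_notMem hVF] at this
  omega

/-- The measures at most `exp b` of families are measures of coprime pairs of bounded height. -/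
theorem class_LL' (b : ℝ) : ∃ K : ℝ, ∀ (k n : ℕ) (M : Fam k n), M.L Finset.univ ≤ b →
    mM (M.F Finset.univ) ∈ LL K := by
  obtain ⟨s, hs⟩ := deletion' b
  refine ⟨b + s * (2 * b + 5 * Real.log 2), fun k n M hb => ?_⟩
  obtain ⟨S, hS, h0⟩ := hs k n M hb
  have h1 := M.height Finset.univ S (Finset.subset_univ S)
  have h3 : 0 ≤ M.L Finset.univ := M.L_nonneg _
  have hl2 : 0 < Real.log 2 := Real.log_pos (by norm_num)
  have h4 : (S.card : ℝ) ≤ s := by exact_mod_cast hS
  have h5 : (S.card : ℝ) * (2 * M.L Finset.univ + 5 * Real.log 2) ≤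
      s * (2 * b + 5 * Real.log 2) := by
    apply mul_le_mul h4 (by linarith) (by positivity) (by positivity)
  exact pair_LL' _ (k + 1) (by omega) _ _ (M.F_ne _) (M.F_ne _) (M.gcd_cond _ _ h0)
    (by linarith)

end

end Pool.Agent.W110.PG
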