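import Pool.Agent.W110.PG.C

/-!
# Hermitian matrices over the ring of integral Laurent polynomials
-/

set_option autoImplicit false
set_option linter.unusedSectionVars false

namespace Pool.Agent.W110.PG

open MeasureTheory Polynomial Matrix Filter
open Pool.Agent.H261R2.CM Pool.Agent.W242.IM

noncomputable section

variable {k n : ℕ}

/-- the matrix `z ^ (-d) P(z)` at a point of the torus -/
def sym {ι : Type*} (P : Matrix ι ι (MvPolynomial (Fin k) ℤ)) (d : Fin k →₀ ℕ) (t : Fin k → ℝ) :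
    Matrix ι ι ℂ :=
  Matrix.of fun i j => (tv (MvPolynomial.monomial d 1) t)⁻¹ * tv (P i j) t

/-- `det ((z_0 ^ 2 + 1) z ^ d - z_0 P)` -/
def chi {ι : Type*} [Fintype ι] [DecidableEq ι] (P : Matrix ι ι (MvPolynomial (Fin k) ℤ))
    (d : Fin k →₀ ℕ) : MvPolynomial (Fin (k + 1)) ℤ :=
  (Matrix.of fun i j => (if i = j then (MvPolynomial.X 0 ^ 2 + 1) *
    MvPolynomial.rename Fin.succ (MvPolynomial.monomial d 1) else 0) -
    MvPolynomial.X 0 * MvPolynomial.rename Fin.succ (P i j)).det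

theorem tv_det {m : ℕ} {ι : Type*} [Fintype ι] [DecidableEq ι]
    (N : Matrix ι ι (MvPolynomial (Fin m) ℤ)) (τ : Fin m → ℝ) :
    tv N.det τ = (Matrix.of fun i j => tv (N i j) τ).det := by
  rw [J.tv_eq, RingHom.map_det]
  rfl

theorem tv_cons_succ (p : MvPolynomial (Fin k) ℤ) (s : ℝ) (t : Fin k → ℝ) :
    tv (MvPolynomial.rename Fin.succ p) (Fin.cons s t) = tv p t := by
  rw [Pool.Agent.TH845.KN.tv_ren]
  simp only [Fin.cons_succ]

theorem tv_cons_zero (s : ℝ) (t : Fin k → ℝ) :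
    tv (MvPolynomial.X 0 : MvPolynomial (Fin (k + 1)) ℤ) (Fin.cons s t) = ez s := by
  rw [J.tv_X]
  unfold J.zz ez
  rw [Fin.cons_zero]

theorem norm_mon (d : Fin k →₀ ℕ) (t : Fin k → ℝ) : ‖tv (MvPolynomial.monomial d 1) t‖ = 1 := by
  rw [J.tv_monomial, norm_mul, norm_prod]
  simp [J.norm_zz]

theorem mon_ne (d : Fin k →₀ ℕ) (t : Fin k → ℝ) : tv (MvPolynomial.monomial d 1) t ≠ 0 := by
  intro h
  have h1 := norm_mon d t
  rw [h, norm_zero] at h1
  exact zero_ne_one h1

theorem norm_chi {ι : Type*} [Fintype ι] [DecidableEq ι]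
    (P : Matrix ι ι (MvPolynomial (Fin k) ℤ)) (d : Fin k →₀ ℕ) (t : Fin k → ℝ) (s : ℝ) :
    ‖tv (chi P d) (Fin.cons s t)‖ = ‖(sym P d t).charpoly.eval ((tc s : ℝ) : ℂ)‖ := by
  unfold chi
  rw [tv_det, Matrix.eval_charpoly]
  set m := tv (MvPolynomial.monomial d 1) t with hm
  have hm0 : m ≠ 0 := mon_ne d t
  have h1 : (Matrix.of fun i j => tv ((Matrix.of fun i j => (if i = j then (MvPolynomial.X 0 ^ 2 + 1) *
      MvPolynomial.rename Fin.succ (MvPolynomial.monomial d 1) else 0) -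
      MvPolynomial.X 0 * MvPolynomial.rename Fin.succ (P i j)) i j)
      (Fin.cons s t : Fin (k + 1) → ℝ) : Matrix ι ι ℂ) =
      (ez s * m) • (Matrix.scalar ι ((tc s : ℝ) : ℂ) - sym P d t) := by
    ext i j
    rw [Matrix.of_apply, Matrix.of_apply, Matrix.smul_apply, Matrix.sub_apply, J.tv_eq, map_sub,
      ← J.tv_eq, ← J.tv_eq, J.tv_mul, tv_cons_zero, tv_cons_succ]
    have h2 : tv (if i = j then (MvPolynomial.X 0 ^ 2 + 1) *
        MvPolynomial.rename Fin.succ (MvPolynomial.monomial d 1) else 0 :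
        MvPolynomial (Fin (k + 1)) ℤ) (Fin.cons s t) =
        ez s * m * (Matrix.scalar ι ((tc s : ℝ) : ℂ)) i j := by
      rw [Matrix.scalar_apply]
      by_cases hij : i = j
      · rw [if_pos hij, hij, Matrix.diagonal_apply_eq, J.tv_mul, tv_cons_succ, J.tv_add, J.tv_one]
        have h3 : tv (MvPolynomial.X 0 ^ 2 : MvPolynomial (Fin (k + 1)) ℤ) (Fin.cons s t) =
            ez s ^ 2 := by
          rw [J.tv_eq, map_pow, ← J.tv_eq, tv_cons_zero]
        rw [h3, ez_add_inv]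
        ring
      · rw [if_neg hij, Matrix.diagonal_apply_ne _ hij, tv_zero', mul_zero]
    rw [h2]
    unfold sym
    rw [Matrix.of_apply, ← hm, smul_eq_mul]
    field_simp
  rw [h1, Matrix.det_smul, norm_mul, norm_pow, norm_mul, D_norm_ez, norm_mon, mul_one, one_pow,
    one_mul]

theorem sym_submatrix {ι κ : Type*} (P : Matrix ι ι (MvPolynomial (Fin k) ℤ)) (d : Fin k →₀ ℕ)
    (t : Fin k → ℝ) (f : κ → ι) : sym (P.submatrix f f) d t = (sym P d t).submatrix f f := rfl

/-- the family given by a Hermitian matrix over the ring of Laurent polynomials -/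
def fam (P : Matrix (Fin n) (Fin n) (MvPolynomial (Fin k) ℤ)) (d : Fin k →₀ ℕ)
    (h : ∀ t, (sym P d t).IsHermitian) : Fam k n where
  A := sym P d
  P := P
  F := fun U => chi (P.submatrix (Subtype.val : U → Fin n) Subtype.val) d
  herm := h
  ent := by
    intro i j t
    unfold sym
    rw [Matrix.of_apply, norm_mul, norm_inv, norm_mon, inv_one, one_mul]
  val := by
    intro U t s
    rw [norm_chi]
    rfl

theorem chi_reindex {ι κ : Type*} [Fintype ι] [DecidableEq ι] [Fintype κ] [DecidableEq κ]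
    (P : Matrix ι ι (MvPolynomial (Fin k) ℤ)) (d : Fin k →₀ ℕ) (e : κ ≃ ι) :
    chi (P.submatrix e e) d = chi P d := by
  unfold chi
  rw [← Matrix.det_submatrix_equiv_self e (Matrix.of fun i j => (if i = j then
    (MvPolynomial.X 0 ^ 2 + 1) * MvPolynomial.rename Fin.succ (MvPolynomial.monomial d 1) else 0) -
    MvPolynomial.X 0 * MvPolynomial.rename Fin.succ (P i j))]
  congr 1
  ext1 i j
  simp only [Matrix.of_apply, Matrix.submatrix_apply, EmbeddingLike.apply_eq_iff_eq]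

theorem chi_univ (P : Matrix (Fin n) (Fin n) (MvPolynomial (Fin k) ℤ)) (d : Fin k →₀ ℕ) :
    chi (P.submatrix (Subtype.val : ↥(Finset.univ : Finset (Fin n)) → Fin n) Subtype.val) d =
      chi P d :=
  chi_reindex P d (Equiv.subtypeUnivEquiv (fun x => Finset.mem_univ x))

/-- the measures of the Hermitian matrices over rings of Laurent polynomials -/
def PM : Set ℝ := {x : ℝ | ∃ (k n : ℕ) (P : Matrix (Fin n) (Fin n) (MvPolynomial (Fin k) ℤ))
  (d : Fin k →₀ ℕ), (∀ t, (sym P d t).IsHermitian) ∧ x = mM (chi P d)}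

theorem PM_BC : Pool.Agent.TH845.KN.BC PM := by
  intro B
  obtain ⟨K, hK⟩ := class_LL' (Real.log (max B 1))
  refine ⟨K, ?_⟩
  rintro x ⟨⟨k, n, P, d, h, rfl⟩, hB⟩
  have h1 := hK k n (fam P d h)
  have h2 : (fam P d h).F Finset.univ = chi P d := chi_univ P d
  have h3 := ((fam P d h).L_facts Finset.univ).2
  rw [h2] at h1 h3
  refine h1 ?_
  rw [Set.mem_Iio, h3] at hB
  rw [Real.le_log_iff_exp_le (by positivity)]
  exact hB.le.trans (le_max_left _ _)

theorem PM_delete (B : ℝ) : ∃ s : ℕ, ∀ (k n : ℕ)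
    (P : Matrix (Fin n) (Fin n) (MvPolynomial (Fin k) ℤ)) (d : Fin k →₀ ℕ),
    (∀ t, (sym P d t).IsHermitian) → mM (chi P d) ≤ B →
    ∃ S : Finset (Fin n), S.card ≤ s ∧
      mM (chi (P.submatrix (Subtype.val : (Sᶜ : Finset (Fin n)) → Fin n) Subtype.val) d) = 1 := by
  obtain ⟨s, hs⟩ := deletion' (Real.log (max B 1))
  refine ⟨s, fun k n P d h hB => ?_⟩
  have h2 : (fam P d h).F Finset.univ = chi P d := chi_univ P d
  have h3 := ((fam P d h).L_facts Finset.univ).2
  rw [h2] at h3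
  obtain ⟨S, hS, h4⟩ := hs k n (fam P d h) (by
    rw [h3] at hB
    rw [Real.le_log_iff_exp_le (by positivity)]
    exact hB.trans (le_max_left _ _))
  refine ⟨S, hS, ?_⟩
  have h5 := (fam P d h).mM_eq_one _ h4
  rw [← Finset.compl_eq_univ_sdiff] at h5
  exact h5

/-- the gap and the small submatrices -/
theorem PM_small : ∃ (μ : ℝ) (N : ℕ), 1 < μ ∧ ∀ (k n : ℕ)
    (P : Matrix (Fin n) (Fin n) (MvPolynomial (Fin k) ℤ)) (d : Fin k →₀ ℕ),
    (∀ t, (sym P d t).IsHermitian) → mM (chi P d) ≠ 1 →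
    μ ≤ mM (chi P d) ∧ ∃ V : Finset (Fin n), V.card ≤ N ∧
      μ ≤ mM (chi (P.submatrix (Subtype.val : V → Fin n) Subtype.val) d) := by
  obtain ⟨δ, N, hδ, h⟩ := size_bound'
  refine ⟨Real.exp δ, N, Real.one_lt_exp_iff.mpr hδ, fun k n P d hP h1 => ?_⟩
  have h2 : (fam P d hP).F Finset.univ = chi P d := chi_univ P d
  have h3 := ((fam P d hP).L_facts Finset.univ).2
  rw [h2] at h3
  have h4 : (fam P d hP).L Finset.univ ≠ 0 := by
    intro h0
    rw [h0, Real.exp_zero] at h3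
    exact h1 h3
  obtain ⟨V, hV, h5, h6⟩ := h k n (fam P d hP) Finset.univ h4
  refine ⟨?_, V, h5, ?_⟩
  · rw [h3]
    exact Real.exp_le_exp.mpr (h6.trans ((fam P d hP).L_mono hV))
  · have h7 := ((fam P d hP).L_facts V).2
    have h8 : (fam P d hP).F V = chi (P.submatrix (Subtype.val : V → Fin n) Subtype.val) d := rfl
    rw [← h8, h7]
    exact Real.exp_le_exp.mpr h6

end

end Pool.Agent.W110.PG
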